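import Pool.Agent.Work.MP_7cb3ca_co.Fn.Lane0
import Pool.Agent.Work.MP_7cb3ca_co.I5.A

namespace Pool.Agent.Work.MP_7cb3ca_co.I5
set_option maxRecDepth 100000

def lay : Fn.LD :=
  { r := 5, two := false, T := 15, p0 := 2, al := [5, 8, 11], sg := 6, nr := [2, 3, 4],
    r2 := 5, KG := 14, SC := 0, T2 := 0 }

def l0 : PLift (lay.C0 par) := ⟨by decide +kernel⟩
def l1 : PLift (lay.C1 par) := ⟨by decide +kernel⟩
def l2 : PLift (lay.C2 par) := ⟨by decide +kernel⟩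
def l3 : PLift (lay.C3 par) := ⟨by decide +kernel⟩
def l4 : PLift (lay.C4 par) := ⟨by decide +kernel⟩
def l5 : PLift (lay.C5 par) := ⟨by decide +kernel⟩
def l6 : PLift (lay.C6 par) := ⟨by decide +kernel⟩
def l7 : PLift (lay.C7 par) := ⟨by decide +kernel⟩

end Pool.Agent.Work.MP_7cb3ca_co.I5
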